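import Pool.Agent.Y858.BU.Stm

set_option autoImplicit false

/-!
Task ZIG of project BU (helper858): a measure preserving zigzag folding of the circle.
-/

namespace Pool.Agent.Y281.BU

open Set Filter Topology MeasureTheory Metric
open scoped ENNReal

/-- length of a zigzag path given by its successive values -/
noncomputable def len : ℝ → List ℝ → ℝ
  | _, [] => 0
  | a, b :: l => |b - a| + len b l

/-- last value -/
noncomputable def lst : ℝ → List ℝ → ℝ
  | a, [] => a
  | _, b :: l => lst b l

/-- slope of the segment from `a` to `b` -/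
noncomputable def sl (a b : ℝ) : ℝ := if a ≤ b then 1 else -1

/-- the zigzag function -/
noncomputable def zz : ℝ → List ℝ → ℝ → ℝ
  | a, [], _ => a
  | a, b :: l, x => if x ≤ |b - a| then a + sl a b * x else zz b l (x - |b - a|)

/-- break points -/
noncomputable def brk : ℝ → List ℝ → Finset ℝ
  | _, [] => ∅
  | a, b :: l => insert |b - a| ((brk b l).image (fun x => x + |b - a|))

/-- push forward -/
noncomputable def push (F : ℝ → ℝ≥0∞) : ℝ → List ℝ → ℝ≥0∞
  | _, [] => 0
  | a, b :: l => (∫⁻ t in uIoc a b, F t) + push F b l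

lemma sl_abs (a b : ℝ) : a + sl a b * |b - a| = b := by
  unfold sl
  split_ifs with h
  · rw [abs_of_nonneg (by linarith)]; ring
  · rw [abs_of_neg (by linarith)]; ring

lemma sl_cases (a b : ℝ) : sl a b = 1 ∨ sl a b = -1 := by
  unfold sl
  split_ifs with h
  · exact Or.inl rfl
  · exact Or.inr rfl

lemma len_nonneg (a : ℝ) (l : List ℝ) : 0 ≤ len a l := by
  induction l generalizing a with
  | nil => simp [len]
  | cons b l ih => simp only [len]; have := ih b; positivity

lemma len_append (a : ℝ) (p q : List ℝ) : len a (p ++ q) = len a p + len (lst a p) q := by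
  induction p generalizing a with
  | nil => simp [len, lst]
  | cons b l ih => simp only [List.cons_append, len, lst, ih b]; ring

lemma lst_append (a : ℝ) (p q : List ℝ) : lst a (p ++ q) = lst (lst a p) q := by
  induction p generalizing a with
  | nil => simp [lst]
  | cons b l ih => simp only [List.cons_append, lst, ih b]

lemma push_append (F : ℝ → ℝ≥0∞) (a : ℝ) (p q : List ℝ) :
    push F a (p ++ q) = push F a p + push F (lst a p) q := by
  induction p generalizing a with
  | nil => simp [push, lst]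
  | cons b l ih => simp only [List.cons_append, push, lst, ih b]; rw [add_assoc]

lemma zz_zero (a : ℝ) (l : List ℝ) : zz a l 0 = a := by
  cases l with
  | nil => simp [zz]
  | cons b l => simp [zz]

lemma zz_prefix (a : ℝ) (p q : List ℝ) : zz a (p ++ q) (len a p) = lst a p := by
  induction p generalizing a with
  | nil => simp [len, lst, zz_zero]
  | cons b l ih =>
    simp only [List.cons_append, zz, len, lst]
    split_ifs with h
    · have h0 : len b l = 0 := le_antisymm (by linarith) (len_nonneg _ _)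
      have h1 := ih b
      rw [h0, zz_zero] at h1
      rw [h0, add_zero, sl_abs]
      exact h1
    · have : |b - a| + len b l - |b - a| = len b l := by ring
      rw [this, ih b]

lemma zz_cont (a : ℝ) (l : List ℝ) : Continuous (zz a l) := by
  induction l generalizing a with
  | nil =>
    have : zz a [] = fun _ => a := by funext x; simp [zz]
    rw [this]; exact continuous_const
  | cons b l ih =>
    have : zz a (b :: l) = fun x => if x ≤ |b - a| then a + sl a b * x
        else zz b l (x - |b - a|) := by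
      funext x; simp only [zz]
    rw [this]
    apply Continuous.if_le
    · fun_prop
    · exact (ih b).comp (by fun_prop)
    · fun_prop
    · fun_prop
    · intro x hx
      rw [hx, sl_abs, sub_self, zz_zero]

lemma seg_mem {a b lo hi x : ℝ} (ha : a ∈ Icc lo hi) (hb : b ∈ Icc lo hi) (h0 : 0 ≤ x)
    (h1 : x ≤ |b - a|) : a + sl a b * x ∈ Icc lo hi := by
  unfold sl
  split_ifs with h
  · rw [abs_of_nonneg (by linarith)] at h1
    exact ⟨by linarith [ha.1], by linarith [hb.2]⟩
  · rw [abs_of_neg (by linarith)] at h1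
    exact ⟨by linarith [hb.1], by linarith [ha.2]⟩

lemma seg_mem' {a b lo hi x : ℝ} (ha : a ∈ Icc lo hi) (hb : b ∈ Icc lo hi) (h0 : 0 < x)
    (h1 : x < |b - a|) : a + sl a b * x ∈ Ioo lo hi := by
  unfold sl
  split_ifs with h
  · rw [abs_of_nonneg (by linarith)] at h1
    exact ⟨by linarith [ha.1], by linarith [hb.2]⟩
  · rw [abs_of_neg (by linarith)] at h1
    exact ⟨by linarith [hb.1], by linarith [ha.2]⟩

lemma zz_mem {lo hi : ℝ} (a : ℝ) (l : List ℝ) (ha : a ∈ Icc lo hi) (hl : ∀ b ∈ l, b ∈ Icc lo hi)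
    (x : ℝ) (hx : 0 ≤ x) : zz a l x ∈ Icc lo hi := by
  induction l generalizing a x with
  | nil => simpa [zz] using ha
  | cons b l ih =>
    have hb := hl b (by simp)
    simp only [zz]
    split_ifs with h
    · exact seg_mem ha hb hx h
    · exact ih b hb (fun c hc => hl c (by simp [hc])) _ (by linarith)

lemma zz_aff {lo hi : ℝ} (a : ℝ) (l : List ℝ) (ha : a ∈ Icc lo hi) (hl : ∀ b ∈ l, b ∈ Icc lo hi)
    (x : ℝ) (hx : 0 < x) (hx' : x < len a l) (hxb : x ∉ brk a l) :
    zz a l x ∈ Ioo lo hi ∧ ∃ c : ℝ, (c = 1 ∨ c = -1) ∧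
      ∀ᶠ y in 𝓝 x, zz a l y = zz a l x + c * (y - x) := by
  induction l generalizing a x with
  | nil => simp [len] at hx'; linarith
  | cons b l ih =>
    have hb := hl b (by simp)
    have hx1 : x ≠ |b - a| := by
      intro h; apply hxb; simp [brk, h]
    rcases lt_or_gt_of_ne hx1 with h | h
    · have e1 : zz a (b :: l) x = a + sl a b * x := by
        simp only [zz]; rw [if_pos h.le]
      rw [e1]
      refine ⟨seg_mem' ha hb hx h, sl a b, sl_cases a b, ?_⟩
      filter_upwards [eventually_lt_nhds h] with y hy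
      simp only [zz]
      rw [if_pos hy.le]; ring
    · have e1 : ∀ y, |b - a| < y → zz a (b :: l) y = zz b l (y - |b - a|) := by
        intro y hy
        simp only [zz]; rw [if_neg (not_le.mpr hy)]
      have h3 : x - |b - a| ∉ brk b l := by
        intro h4
        apply hxb
        simp only [brk, Finset.mem_insert, Finset.mem_image]
        exact Or.inr ⟨_, h4, by ring⟩
      obtain ⟨h5, c, hc, h6⟩ := ih b hb (fun c hc => hl c (by simp [hc])) (x - |b - a|)
        (by linarith) (by simp only [len] at hx'; linarith) h3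
      rw [e1 x h]
      refine ⟨h5, c, hc, ?_⟩
      have h7 : Tendsto (fun y : ℝ => y - |b - a|) (𝓝 x) (𝓝 (x - |b - a|)) :=
        (continuous_id.sub continuous_const).tendsto x
      filter_upwards [eventually_gt_nhds h, h7.eventually h6] with y hy hy2
      rw [e1 y hy, hy2]; ring

lemma lint_trans (f : ℝ → ℝ≥0∞) (a b c : ℝ) :
    ∫⁻ x in Ioc (a + c) (b + c), f (x - c) = ∫⁻ x in Ioc a b, f x := by
  have h := (measurePreserving_sub_right (volume : Measure ℝ) c).setLIntegral_comp_preimage_emb
    (MeasurableEquiv.subRight c).measurableEmbedding f (Ioc a b)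
  rw [← h]
  congr 2
  ext x
  simp only [mem_preimage, mem_Ioc]
  constructor
  · rintro ⟨h1, h2⟩; exact ⟨by linarith, by linarith⟩
  · rintro ⟨h1, h2⟩; exact ⟨by linarith, by linarith⟩

lemma lint_refl (f : ℝ → ℝ≥0∞) (a b c : ℝ) :
    ∫⁻ x in Ioc (c - b) (c - a), f (c - x) = ∫⁻ x in Ioc a b, f x := by
  have h := (Measure.measurePreserving_sub_left (volume : Measure ℝ) c).setLIntegral_comp_preimage_emb
    (MeasurableEquiv.subLeft c).measurableEmbedding f (Ico a b)
  rw [setLIntegral_congr (Ico_ae_eq_Ioc (a := a) (b := b))] at h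
  rw [← h]
  congr 2
  ext x
  simp only [mem_preimage, mem_Ioc, mem_Ico]
  constructor
  · rintro ⟨h1, h2⟩; exact ⟨by linarith, by linarith⟩
  · rintro ⟨h1, h2⟩; exact ⟨by linarith, by linarith⟩

lemma seg_lint (F : ℝ → ℝ≥0∞) (a b : ℝ) :
    ∫⁻ x in Ioc 0 |b - a|, F (a + sl a b * x) = ∫⁻ t in uIoc a b, F t := by
  unfold sl
  split_ifs with h
  · rw [abs_of_nonneg (by linarith), uIoc_of_le h]
    have := lint_trans F a b (-a)
    rw [← this]
    have e : Ioc (a + -a) (b + -a) = Ioc 0 (b - a) := by
      congr 1; ring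
    rw [e]
    refine lintegral_congr (fun x => ?_)
    congr 1; ring
  · rw [abs_of_neg (by linarith), uIoc_of_ge (by linarith)]
    have := lint_refl F b a a
    rw [← this]
    have e : Ioc (a - a) (a - b) = Ioc 0 (-(b - a)) := by
      congr 1 <;> ring
    rw [e]
    refine lintegral_congr (fun x => ?_)
    congr 1; ring

lemma zz_lint (F : ℝ → ℝ≥0∞) (a : ℝ) (l : List ℝ) :
    ∫⁻ x in Ioc 0 (len a l), F (zz a l x) = push F a l := by
  induction l generalizing a with
  | nil => simp [len, push]
  | cons b l ih =>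
    simp only [len, push]
    have h0 : (0 : ℝ) ≤ |b - a| := abs_nonneg _
    have h1 := len_nonneg b l
    rw [← Ioc_union_Ioc_eq_Ioc h0 (by linarith : |b - a| ≤ |b - a| + len b l),
      lintegral_union measurableSet_Ioc (Ioc_disjoint_Ioc_of_le le_rfl)]
    congr 1
    · rw [← seg_lint]
      refine setLIntegral_congr_fun measurableSet_Ioc (fun x hx => ?_)
      simp only [zz]
      rw [if_pos hx.2]
    · rw [← ih b]
      have := lint_trans (fun x => F (zz b l x)) 0 (len b l) |b - a|
      rw [← this]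
      have e : Ioc (0 + |b - a|) (len b l + |b - a|) = Ioc |b - a| (|b - a| + len b l) := by
        congr 1 <;> ring
      rw [e]
      refine setLIntegral_congr_fun measurableSet_Ioc (fun x hx => ?_)
      simp only [zz]
      rw [if_neg (not_le.mpr hx.1)]

/-- insertion of an excursion from `v` up to `h` and back -/
noncomputable def ins (v h : ℝ) : List ℝ → List ℝ
  | [] => []
  | b :: l => if v ≤ b then v :: h :: v :: b :: l else b :: ins v h l

lemma ins_mem {v h : ℝ} (l : List ℝ) (x : ℝ) (hx : x ∈ l) : x ∈ ins v h l := by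
  induction l with
  | nil => simp at hx
  | cons b l ih =>
    simp only [ins]
    split_ifs with h1
    · simp only [List.mem_cons] at hx ⊢
      tauto
    · simp only [List.mem_cons] at hx ⊢
      rcases hx with hx | hx
      · exact Or.inl hx
      · exact Or.inr (ih hx)

lemma ins_range {v h lo hi : ℝ} (l : List ℝ) (hv : v ∈ Icc lo hi) (hh : h ∈ Icc lo hi)
    (hl : ∀ b ∈ l, b ∈ Icc lo hi) : ∀ b ∈ ins v h l, b ∈ Icc lo hi := by
  induction l with
  | nil => simp [ins]
  | cons b l ih =>
    simp only [ins]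
    split_ifs with h1
    · intro c hc
      simp only [List.mem_cons] at hc
      rcases hc with hc | hc | hc | hc | hc
      · rw [hc]; exact hv
      · rw [hc]; exact hh
      · rw [hc]; exact hv
      · exact hl c (by simp [hc])
      · exact hl c (by simp [hc])
    · intro c hc
      simp only [List.mem_cons] at hc
      rcases hc with hc | hc
      · exact hl c (by simp [hc])
      · exact ih (fun c hc => hl c (by simp [hc])) c hc

lemma ins_lst {v h : ℝ} (a : ℝ) (l : List ℝ) : lst a (ins v h l) = lst a l := by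
  induction l generalizing a with
  | nil => simp [ins]
  | cons b l ih =>
    simp only [ins]
    split_ifs with h1
    · simp only [lst]
    · simp only [lst, ih]

lemma ins_len {v h : ℝ} (hvh : v ≤ h) (a : ℝ) (l : List ℝ) (ha : a ≤ v)
    (hl : ∃ b ∈ l, v ≤ b) : len a (ins v h l) = len a l + 2 * (h - v) := by
  induction l generalizing a with
  | nil => simp at hl
  | cons b l ih =>
    simp only [ins]
    split_ifs with h1
    · simp only [len]
      rw [abs_of_nonneg (by linarith), abs_of_nonneg (by linarith), abs_of_nonpos (by linarith),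
        abs_of_nonneg (by linarith), abs_of_nonneg (by linarith)]
      ring
    · simp only [len]
      have h2 : ∃ b ∈ l, v ≤ b := by
        obtain ⟨c, hc, hc2⟩ := hl
        simp only [List.mem_cons] at hc
        rcases hc with hc | hc
        · rw [hc] at hc2; exact absurd hc2 h1
        · exact ⟨c, hc, hc2⟩
      rw [ih b (by linarith) h2]; ring

lemma uIoc_split (F : ℝ → ℝ≥0∞) {a v b : ℝ} (h1 : a ≤ v) (h2 : v ≤ b) :
    (∫⁻ t in uIoc a v, F t) + (∫⁻ t in uIoc v b, F t) = ∫⁻ t in uIoc a b, F t := by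
  rw [uIoc_of_le h1, uIoc_of_le h2, uIoc_of_le (h1.trans h2), ← Ioc_union_Ioc_eq_Ioc h1 h2,
      lintegral_union measurableSet_Ioc (Ioc_disjoint_Ioc_of_le le_rfl)]

lemma ins_push {v h : ℝ} (F : ℝ → ℝ≥0∞) (a : ℝ) (l : List ℝ) (ha : a ≤ v)
    (hl : ∃ b ∈ l, v ≤ b) : push F a (ins v h l) = push F a l + 2 * ∫⁻ t in uIoc v h, F t := by
  induction l generalizing a with
  | nil => simp at hl
  | cons b l ih =>
    simp only [ins]
    split_ifs with h1
    · simp only [push]
      rw [← uIoc_split F ha h1, uIoc_comm h v]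
      ring
    · simp only [push]
      have h2 : ∃ b ∈ l, v ≤ b := by
        obtain ⟨c, hc, hc2⟩ := hl
        simp only [List.mem_cons] at hc
        rcases hc with hc | hc
        · rw [hc] at hc2; exact absurd hc2 h1
        · exact ⟨c, hc, hc2⟩
      rw [ih b (by linarith) h2]; ring

/-- the combinatorial lemma -/
lemma comb (h : ℝ) (hh : 0 < h) (n : ℕ) : ∀ (s : Finset ℕ) (L : ℕ → ℝ), s.card = n + 1 →
    (∀ i ∈ s, 0 < L i) → ∑ i ∈ s, L i = 2 * (n + 1) * h →
    ∃ l : ℕ → List ℝ, (∀ i ∈ s, (∀ b ∈ l i, b ∈ Icc 0 h) ∧ lst 0 (l i) = 0 ∧ len 0 (l i) = L i) ∧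
      (∀ c, (∀ j ∈ s, c ≤ L j) → ∀ i ∈ s, ∃ v ∈ l i, c ≤ 2 * v) ∧
      ∀ F : ℝ → ℝ≥0∞, ∑ i ∈ s, push F 0 (l i) = 2 * (n + 1) * ∫⁻ t in uIoc 0 h, F t := by
  induction n with
  | zero =>
    intro s L hs hL hsum
    obtain ⟨i, rfl⟩ := Finset.card_eq_one.mp (by simpa using hs)
    simp only [Finset.sum_singleton, Nat.cast_zero, zero_add, mul_one] at hsum
    refine ⟨fun _ => [h, 0], ?_, ?_, ?_⟩
    · intro j hj
      simp only [Finset.mem_singleton] at hj
      subst hj
      refine ⟨?_, by simp [lst], ?_⟩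
      · intro b hb
        simp only [List.mem_cons, List.not_mem_nil, or_false] at hb
        rcases hb with hb | hb
        · rw [hb]; exact ⟨hh.le, le_rfl⟩
        · rw [hb]; exact ⟨le_rfl, hh.le⟩
      · simp only [len]
        rw [abs_of_nonneg (by linarith), abs_of_nonpos (by linarith), hsum]; ring
    · intro c hc j hj
      exact ⟨h, by simp, by have := hc i (by simp); linarith⟩
    · intro F
      simp only [Finset.sum_singleton, push, uIoc_comm h 0, Nat.cast_zero, zero_add, mul_one,
        add_zero]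
      ring
  | succ n ih =>
    intro s L hs hL hsum
    have hne : s.Nonempty := by rw [← Finset.card_pos]; omega
    obtain ⟨i0, hi0, hmin⟩ := Finset.exists_min_image s L hne
    have hL0 : 0 < L i0 := hL i0 hi0
    have h2 : L i0 ≤ 2 * h := by
      have := Finset.card_nsmul_le_sum s L (L i0) (fun x hx => hmin x hx)
      rw [hsum, hs, nsmul_eq_mul] at this
      push_cast at this
      have h3 : (0 : ℝ) < (n : ℝ) + 1 + 1 := by positivity
      by_contra hcon
      push Not at hcon
      nlinarith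
    have hsum' : ∑ i ∈ s.erase i0, L i = 2 * ((n : ℝ) + 1 + 1) * h - L i0 := by
      have := Finset.add_sum_erase s L hi0
      push_cast at hsum
      linarith
    have hcard : (s.erase i0).card = n + 1 := by
      rw [Finset.card_erase_of_mem hi0]; omega
    have hne' : (s.erase i0).Nonempty := by rw [← Finset.card_pos]; omega
    obtain ⟨i1, hi1, h3⟩ : ∃ i1 ∈ s.erase i0, 2 * h ≤ L i1 := by
      apply Finset.exists_le_of_sum_le hne'
      rw [Finset.sum_const, hcard, hsum', nsmul_eq_mul]
      push_cast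
      nlinarith
    have hi1s : i1 ∈ s := Finset.mem_of_mem_erase hi1
    have hi10 : i1 ≠ i0 := Finset.ne_of_mem_erase hi1
    set L' : ℕ → ℝ := Function.update L i1 (L i1 - (2 * h - L i0)) with hL'
    have hL'1 : L' i1 = L i1 - (2 * h - L i0) := by rw [hL']; simp
    have hL'2 : ∀ j, j ≠ i1 → L' j = L j := by
      intro j hj; rw [hL']; simp [hj]
    have hge : ∀ j ∈ s.erase i0, L i0 ≤ L' j := by
      intro j hj
      by_cases hj1 : j = i1
      · rw [hj1, hL'1]; linarith
      · rw [hL'2 j hj1]; exact hmin j (Finset.mem_of_mem_erase hj)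
    have hsumL' : ∑ i ∈ s.erase i0, L' i = 2 * ((n : ℝ) + 1) * h := by
      have e1 := Finset.add_sum_erase (s.erase i0) L' hi1
      have e2 := Finset.add_sum_erase (s.erase i0) L hi1
      have e3 : ∑ i ∈ (s.erase i0).erase i1, L' i = ∑ i ∈ (s.erase i0).erase i1, L i :=
        Finset.sum_congr rfl (fun j hj => hL'2 j (Finset.ne_of_mem_erase hj))
      rw [hsum'] at e2
      rw [← e1, e3, hL'1]
      linarith
    obtain ⟨l', hl1, hl2, hl3⟩ := ih (s.erase i0) L' hcard
      (fun i hi => lt_of_lt_of_le hL0 (hge i hi)) hsumL'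
    set v : ℝ := L i0 / 2 with hv
    have hv0 : 0 < v := by rw [hv]; linarith
    have hvh : v ≤ h := by rw [hv]; linarith
    have hvm : v ∈ Icc 0 h := ⟨hv0.le, hvh⟩
    have hhm : h ∈ Icc 0 h := ⟨hh.le, le_rfl⟩
    obtain ⟨w, hw1, hw2⟩ := hl2 (L i0) hge i1 hi1
    have hex : ∃ b ∈ l' i1, v ≤ b := ⟨w, hw1, by rw [hv]; linarith⟩
    set l : ℕ → List ℝ := fun j => if j = i0 then [v, 0] else if j = i1 then ins v h (l' i1)
      else l' j with hldef
    have l0 : l i0 = [v, 0] := by simp [hldef]
    have l1 : l i1 = ins v h (l' i1) := by simp [hldef, hi10]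
    have l2 : ∀ j, j ≠ i0 → j ≠ i1 → l j = l' j := by
      intro j h1 h2; simp [hldef, h1, h2]
    refine ⟨l, ?_, ?_, ?_⟩
    · intro j hj
      by_cases hj0 : j = i0
      · rw [hj0, l0]
        refine ⟨?_, by simp [lst], ?_⟩
        · intro b hb
          simp only [List.mem_cons, List.not_mem_nil, or_false] at hb
          rcases hb with hb | hb
          · rw [hb]; exact hvm
          · rw [hb]; exact ⟨le_rfl, hh.le⟩
        · simp only [len]
          rw [abs_of_nonneg (by linarith), abs_of_nonpos (by linarith), hv]; ring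
      · have hje : j ∈ s.erase i0 := Finset.mem_erase.mpr ⟨hj0, hj⟩
        by_cases hj1 : j = i1
        · rw [hj1, l1]
          obtain ⟨e1, e2, e3⟩ := hl1 i1 hi1
          refine ⟨ins_range _ hvm hhm e1, by rw [ins_lst, e2], ?_⟩
          rw [ins_len hvh 0 _ hv0.le hex, e3, hL'1, hv]; ring
        · rw [l2 j hj0 hj1]
          obtain ⟨e1, e2, e3⟩ := hl1 j hje
          exact ⟨e1, e2, by rw [e3, hL'2 j hj1]⟩
    · intro c hc j hj
      by_cases hj0 : j = i0
      · rw [hj0, l0]
        exact ⟨v, by simp, by have := hc i0 hi0; rw [hv]; linarith⟩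
      · have hje : j ∈ s.erase i0 := Finset.mem_erase.mpr ⟨hj0, hj⟩
        have hc' : ∀ j ∈ s.erase i0, c ≤ L' j := fun j hj => (hc i0 hi0).trans (hge j hj)
        obtain ⟨u, hu1, hu2⟩ := hl2 c hc' j hje
        by_cases hj1 : j = i1
        · rw [hj1, l1]
          rw [hj1] at hu1
          exact ⟨u, ins_mem _ _ hu1, hu2⟩
        · rw [l2 j hj0 hj1]
          exact ⟨u, hu1, hu2⟩
    · intro F
      have e1 := Finset.add_sum_erase s (fun i => push F 0 (l i)) hi0
      have e2 := Finset.add_sum_erase (s.erase i0) (fun i => push F 0 (l i)) hi1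
      have e2' := Finset.add_sum_erase (s.erase i0) (fun i => push F 0 (l' i)) hi1
      have e3 : ∑ i ∈ (s.erase i0).erase i1, push F 0 (l i)
          = ∑ i ∈ (s.erase i0).erase i1, push F 0 (l' i) := by
        refine Finset.sum_congr rfl (fun j hj => ?_)
        have h4 := Finset.mem_of_mem_erase hj
        rw [l2 j (Finset.ne_of_mem_erase h4) (Finset.ne_of_mem_erase hj)]
      have e4 := hl3 F
      rw [← e1, ← e2, e3, l0, l1, ins_push F 0 _ hv0.le hex]
      have e5 : push F 0 [v, 0] = 2 * ∫⁻ t in uIoc 0 v, F t := by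
        simp only [push, uIoc_comm v 0, add_zero]; ring
      rw [e5, ← uIoc_split F hv0.le hvh]
      rw [← e2', ← uIoc_split F hv0.le hvh] at e4
      push_cast
      calc (2 * ∫⁻ t in uIoc 0 v, F t) + (push F 0 (l' i1) + (2 * ∫⁻ t in uIoc v h, F t) +
            ∑ i ∈ (s.erase i0).erase i1, push F 0 (l' i))
          = (push F 0 (l' i1) + ∑ i ∈ (s.erase i0).erase i1, push F 0 (l' i)) +
            2 * ((∫⁻ t in uIoc 0 v, F t) + ∫⁻ t in uIoc v h, F t) := by ring
        _ = _ := by rw [e4]; ring

/-- concatenation -/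
noncomputable def cat (l : ℕ → List ℝ) : ℕ → List ℝ
  | 0 => []
  | n + 1 => cat l n ++ l n

lemma cat_lst (l : ℕ → List ℝ) (n : ℕ) (h : ∀ i < n, lst 0 (l i) = 0) : lst 0 (cat l n) = 0 := by
  induction n with
  | zero => simp [cat, lst]
  | succ n ih =>
    simp only [cat]
    rw [lst_append, ih (fun i hi => h i (by omega)), h n (by omega)]

lemma cat_len (l : ℕ → List ℝ) (n : ℕ) (h : ∀ i < n, lst 0 (l i) = 0) :
    len 0 (cat l n) = ∑ i ∈ Finset.range n, len 0 (l i) := by
  induction n with
  | zero => simp [cat, len]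
  | succ n ih =>
    simp only [cat]
    rw [len_append, ih (fun i hi => h i (by omega)), cat_lst l n (fun i hi => h i (by omega)),
      Finset.sum_range_succ]

lemma cat_push (F : ℝ → ℝ≥0∞) (l : ℕ → List ℝ) (n : ℕ) (h : ∀ i < n, lst 0 (l i) = 0) :
    push F 0 (cat l n) = ∑ i ∈ Finset.range n, push F 0 (l i) := by
  induction n with
  | zero => simp [cat, push]
  | succ n ih =>
    simp only [cat]
    rw [push_append, ih (fun i hi => h i (by omega)), cat_lst l n (fun i hi => h i (by omega)),
      Finset.sum_range_succ]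

lemma cat_range {lo hi : ℝ} (l : ℕ → List ℝ) (n : ℕ)
    (h : ∀ i < n, ∀ b ∈ l i, b ∈ Icc lo hi) : ∀ b ∈ cat l n, b ∈ Icc lo hi := by
  induction n with
  | zero => simp [cat]
  | succ n ih =>
    simp only [cat]
    intro b hb
    rw [List.mem_append] at hb
    rcases hb with hb | hb
    · exact ih (fun i hi => h i (by omega)) b hb
    · exact h n (by omega) b hb

lemma cat_prefix (l : ℕ → List ℝ) (j n : ℕ) (h : j ≤ n) : ∃ r, cat l n = cat l j ++ r := by
  induction n, h using Nat.le_induction with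
  | base => exact ⟨[], by simp⟩
  | succ n hn ih =>
    obtain ⟨r, hr⟩ := ih
    exact ⟨r ++ l n, by simp only [cat]; rw [hr, List.append_assoc]⟩

lemma enum (n : ℕ) (Θ : Finset ℝ) (hc : Θ.card = n + 1) (c : ℝ)
    (h : ∀ θ ∈ Θ, θ ∈ Ico 0 c) : ∃ θ : ℕ → ℝ, (∀ x ∈ Θ, ∃ j < n + 1, θ j = x) ∧
      θ (n + 1) = θ 0 + c ∧ ∀ i < n + 1, θ i < θ (i + 1) := by
  set e := Θ.orderEmbOfFin hc with he
  have h0 : ∀ i, e i ∈ Θ := fun i => Finset.orderEmbOfFin_mem Θ hc i
  refine ⟨fun j => if hj : j < n + 1 then e ⟨j, hj⟩ else e 0 + c, ?_, ?_, ?_⟩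
  · intro x hx
    have : x ∈ Set.range e := by
      rw [he, Finset.range_orderEmbOfFin]; exact hx
    obtain ⟨j, hj⟩ := this
    refine ⟨j, j.2, ?_⟩
    simp only [j.2, dif_pos]
    exact hj
  · simp
  · intro i hi
    simp only [hi, dif_pos]
    by_cases h1 : i + 1 < n + 1
    · rw [dif_pos h1]
      apply e.strictMono
      exact Fin.mk_lt_mk.mpr (by omega)
    · rw [dif_neg h1]
      have := (h _ (h0 ⟨i, hi⟩)).2
      have := (h _ (h0 0)).1
      linarith

theorem t : Pool.Agent.Y858.BU.S_zig := by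
  intro m Θ hm hcard hΘ
  obtain ⟨n, rfl⟩ : ∃ n, m = n + 1 := ⟨m - 1, by omega⟩
  have hpi := Real.pi_pos
  set h : ℝ := Real.pi / ((n + 1 : ℕ) : ℝ) with hh
  have hn : (0 : ℝ) < ((n + 1 : ℕ) : ℝ) := by positivity
  have hh0 : 0 < h := by rw [hh]; positivity
  have hnh : ((n : ℝ) + 1) * h = Real.pi := by
    rw [hh]; push_cast; field_simp
  obtain ⟨θ, hθ2, hθ3, hθ4⟩ := enum n Θ hcard (2 * Real.pi) hΘ
  obtain ⟨l, hl1, -, hl3⟩ := comb h hh0 n (Finset.range (n + 1)) (fun i => θ (i + 1) - θ i)
    (by simp) (by intro i hi; have := hθ4 i (Finset.mem_range.mp hi); linarith)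
    (by rw [Finset.sum_range_sub, hθ3, mul_assoc, hnh]; ring)
  have hlst : ∀ i < n + 1, lst 0 (l i) = 0 := fun i hi => (hl1 i (Finset.mem_range.mpr hi)).2.1
  have hlen : ∀ j ≤ n + 1, len 0 (cat l j) = θ j - θ 0 := by
    intro j hj
    rw [cat_len l j (fun i hi => hlst i (by omega)), ← Finset.sum_range_sub θ j]
    exact Finset.sum_congr rfl (fun i hi => (hl1 i (Finset.mem_range.mpr
      (by have := Finset.mem_range.mp hi; omega))).2.2)
  set C := cat l (n + 1) with hC
  have hlC : len 0 C = 2 * Real.pi := by rw [hC, hlen (n + 1) le_rfl, hθ3]; ring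
  have hrC : ∀ b ∈ C, b ∈ Icc 0 h :=
    cat_range l (n + 1) (fun i hi => (hl1 i (Finset.mem_range.mpr hi)).1)
  have hzero : (0 : ℝ) ∈ Icc 0 h := ⟨le_rfl, hh0.le⟩
  have hCl : zz 0 C (2 * Real.pi) = 0 := by
    have := zz_prefix 0 C []
    rw [List.append_nil, hlC] at this
    rw [this, hC, cat_lst l (n + 1) hlst]
  have h2pi : (0 : ℝ) < 2 * Real.pi := by positivity
  set T : ℝ → ℝ := fun x => zz 0 C (2 * Real.pi * Int.fract ((x - θ 0) / (2 * Real.pi))) with hT
  -- value on the fundamental period
  have hTk : ∀ (x : ℝ) (k : ℤ), 0 ≤ x - θ 0 - 2 * Real.pi * k →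
      x - θ 0 - 2 * Real.pi * k < 2 * Real.pi → T x = zz 0 C (x - θ 0 - 2 * Real.pi * k) := by
    intro x k h1 h2
    have hf : ⌊(x - θ 0) / (2 * Real.pi)⌋ = k := by
      rw [Int.floor_eq_iff]
      constructor
      · rw [le_div_iff₀ h2pi]; linarith
      · rw [div_lt_iff₀ h2pi]; linarith
    simp only [hT]
    congr 1
    rw [Int.fract, hf]
    field_simp
  have hper : ∀ x, T (x + 2 * Real.pi) = T x := by
    intro x
    simp only [hT]
    have : (x + 2 * Real.pi - θ 0) / (2 * Real.pi) = (x - θ 0) / (2 * Real.pi) + 1 := by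
      field_simp; ring
    rw [this, Int.fract_add_one]
  have hcont : Continuous T := by
    have h1 : Continuous ((fun y => zz 0 C (2 * Real.pi * y)) ∘ (Int.fract : ℝ → ℝ)) := by
      apply ContinuousOn.comp_fract''
      · exact ((zz_cont 0 C).comp (by fun_prop)).continuousOn
      · simp only [mul_zero, mul_one]
        rw [zz_zero, hCl]
    have h2 : T = ((fun y => zz 0 C (2 * Real.pi * y)) ∘ (Int.fract : ℝ → ℝ)) ∘
        (fun x => (x - θ 0) / (2 * Real.pi)) := by
      funext x; simp [hT]
    rw [h2]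
    exact h1.comp (by fun_prop)
  have hrng : ∀ x, T x ∈ Icc 0 h := by
    intro x
    exact zz_mem 0 C hzero hrC _ (mul_nonneg h2pi.le (Int.fract_nonneg _))
  refine ⟨T, insert (θ 0) ((brk 0 C).image (fun x => x + θ 0)), hper, hcont, hrng, ?_, ?_, ?_⟩
  · intro x hx
    obtain ⟨j, hj, rfl⟩ := hθ2 x hx
    have e1 : len 0 (cat l j) = θ j - θ 0 := hlen j hj.le
    have e2 : 0 ≤ θ j - θ 0 := by rw [← e1]; exact len_nonneg _ _
    have e3 : θ j - θ 0 < 2 * Real.pi := by
      have h5 : θ j < θ (n + 1) := by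
        have : ∀ i, j + 1 + i ≤ n + 1 → θ j < θ (j + 1 + i) := by
          intro i
          induction i with
          | zero => intro _; exact hθ4 j hj
          | succ i ih =>
            intro h6
            exact (ih (by omega)).trans (hθ4 (j + 1 + i) (by omega))
        have h7 := this (n - j) (by omega)
        have h8 : j + 1 + (n - j) = n + 1 := by omega
        rwa [h8] at h7
      rw [hθ3] at h5; linarith
    rw [hTk (θ j) 0 (by simpa using e2) (by simpa using e3)]
    obtain ⟨r, hr⟩ := cat_prefix l j (n + 1) hj.le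
    simp only [Int.cast_zero, mul_zero, sub_zero]
    rw [hC, hr, ← e1, zz_prefix, cat_lst l j (fun i hi => hlst i (by omega))]
  · intro x hx
    set k : ℤ := ⌊(x - θ 0) / (2 * Real.pi)⌋ with hk
    have f1 : (k : ℝ) ≤ (x - θ 0) / (2 * Real.pi) := Int.floor_le _
    have f2 : (x - θ 0) / (2 * Real.pi) < k + 1 := Int.lt_floor_add_one _
    rw [le_div_iff₀ h2pi] at f1
    rw [div_lt_iff₀ h2pi] at f2
    set z := x - θ 0 - 2 * Real.pi * k with hz
    have z0 : z ≠ 0 := by
      intro h5
      apply hx (θ 0) (by simp) k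
      rw [hz] at h5; linarith
    have z1 : 0 < z := lt_of_le_of_ne (by rw [hz]; linarith) (Ne.symm z0)
    have z2 : z < 2 * Real.pi := by rw [hz]; linarith
    have z3 : z ∉ brk 0 C := by
      intro h5
      apply hx (z + θ 0) (by
        rw [Finset.mem_insert, Finset.mem_image]
        exact Or.inr ⟨z, h5, rfl⟩) k
      rw [hz]; ring
    obtain ⟨g1, c, hc, g2⟩ := zz_aff 0 C hzero hrC z z1 (by rw [hlC]; exact z2) z3
    have g3 : T x = zz 0 C z := hTk x k z1.le z2
    rw [g3]
    refine ⟨g1, c, hc, ?_⟩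
    have g4 : Tendsto (fun y : ℝ => y - θ 0 - 2 * Real.pi * k) (𝓝 x) (𝓝 z) := by
      have : Continuous (fun y : ℝ => y - θ 0 - 2 * Real.pi * k) := by fun_prop
      exact this.tendsto x
    filter_upwards [g4.eventually g2, g4.eventually (lt_mem_nhds z1),
      g4.eventually (gt_mem_nhds z2)] with y hy1 hy2 hy3
    rw [hTk y k hy2.le hy3, hy1, hz]; ring
  · intro F hF
    have hG : ∀ (g : AddSubgroup.zmultiples (2 * Real.pi)) (x : ℝ),
        (fun x => F (T x)) (g +ᵥ x) = (fun x => F (T x)) x := by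
      rintro ⟨g, hg⟩ x
      obtain ⟨k, rfl⟩ := AddSubgroup.mem_zmultiples_iff.mp hg
      have hP : Function.Periodic T (2 * Real.pi) := hper
      have := hP.zsmul k x
      simp only [AddSubgroup.vadd_def, vadd_eq_add]
      rw [add_comm, this]
    have d1 := isAddFundamentalDomain_Ioc h2pi 0 (volume : Measure ℝ)
    have d2 := isAddFundamentalDomain_Ioc h2pi (θ 0) (volume : Measure ℝ)
    have d3 := d1.setLIntegral_eq d2 (fun x => F (T x)) hG
    rw [zero_add] at d3
    rw [setLIntegral_congr (Ioo_ae_eq_Ioc (a := (0 : ℝ)) (b := 2 * Real.pi)), d3]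
    have d4 : ∫⁻ x in Ioc (θ 0) (θ 0 + 2 * Real.pi), F (T x)
        = ∫⁻ x in Ioc (0 + θ 0) (2 * Real.pi + θ 0), F (zz 0 C (x - θ 0)) := by
      rw [zero_add, add_comm (2 * Real.pi)]
      refine setLIntegral_congr_fun measurableSet_Ioc (fun x hx => ?_)
      rcases lt_or_eq_of_le hx.2 with h5 | h5
      · have := hTk x 0 (by simp; linarith [hx.1]) (by simp; linarith)
        simp only [Int.cast_zero, mul_zero, sub_zero] at this
        simp only [this]
      · have e1 : T x = 0 := by
          have := hTk x 1 (by simp; linarith) (by simp; linarith)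
          rw [this, h5]
          have e2 : θ 0 + 2 * Real.pi - θ 0 - 2 * Real.pi * ((1 : ℤ) : ℝ) = 0 := by
            push_cast; ring
          rw [e2, zz_zero]
        have e3 : x - θ 0 = 2 * Real.pi := by rw [h5]; ring
        simp only [e1, e3, hCl]
    rw [d4, lint_trans (fun y => F (zz 0 C y)), ← hlC, zz_lint, hC, cat_push F l (n + 1) hlst,
      hl3 F, uIoc_of_le hh0.le, setLIntegral_congr (Ioo_ae_eq_Ioc (a := (0 : ℝ)) (b := h))]
    push_cast
    rfl

end Pool.Agent.Y281.BU
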